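import Mathlib
import Pool.Agent.Q262.AB.Fin

/-!
# Parry powers of Perron numbers whose trace field contains a large abelian field

Let `β` be a Perron number, `K = ℚ(β + β⁻¹)`, and let `F` be a subfield of `K` which embeds in a
cyclotomic field (by the theorem of Kronecker and Weber these are the subfields which are abelian
over `ℚ`). Let `D = [F : ℚ]` and `m = [K : F]`. If `D ≥ 4 m` and `β < 2 ^ (1 / 4)` then only finitely
many powers of `β` are Parry numbers. The number `2 ^ (1 / 4) = 1.1892...` is larger than Lehmer's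
number. So there is no Salem number below `2 ^ (1 / 4)` whose trace field, of degree `d`, contains an
abelian field of degree at least `2 √d`. Nothing is assumed on `K / F` or on the ramification of `F`.

Method. If infinitely many powers of `β` are Parry numbers then the other conjugates of `β` lie in the
closed unit disc. Let `S_n` be the relative trace of `β ^ n + β ^ (-n)`, from `K` to `F`. All the
conjugates of `S_n` but the given one have modulus at most `2 m`. For a prime number `p`,
`S_p ≡ S_1 ^ p` modulo `p`. Let `N` be the least number such that `F` embeds in the field `L` of the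
`N`-th roots of unity. If `p` does not divide `N` then `S_1 ^ p ≡ σ (S_1)` for the Frobenius
automorphism `σ`. If `p` divides `N` then some automorphism `σ` of `L` fixes the `p`-th power of a
primitive `N`-th root of unity but not the elements of `F`, and `S_p ≡ σ (S_p)` modulo `p`. In both
cases the difference is not zero if `p` is large enough, and its norm gives
`p ^ D ≤ (4 m) ^ D (1 + (β ^ p + β ^ (-p) - 2) / (4 m)) ^ 2`. Then `p` is chosen by means of
Bertrand's postulate: a prime in `(8 m, 16 m]`, or the first one after it for which the difference is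
not zero.
-/

set_option autoImplicit false

open Polynomial

namespace Pool.Agent.Results.MP_1f45fc_nt.AbelianSubfield

/-- `β` is a Perron number: an algebraic integer `β > 1` whose other conjugates have modulus `< β`. -/
def IsPerron (β : ℝ) : Prop :=
  1 < β ∧ IsIntegral ℤ β ∧
    ∀ z : ℂ, aeval z (minpoly ℤ β) = 0 → z ≠ (β : ℂ) → ‖z‖ < β

/-- The `n ≥ 1` such that `β ^ n` is a Parry number, that is, the orbit of `1` under
`x ↦ fract (β ^ n * x)` is finite. -/
def parryPowers (β : ℝ) : Set ℕ :=
  {n : ℕ | 1 ≤ n ∧ Set.Finite (Set.range (fun k : ℕ =>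
    (fun x : ℝ => Int.fract (β ^ n * x))^[k] (1 : ℝ)))}

/-- The field `ℚ(β + β⁻¹)`. -/
noncomputable abbrev TraceField (β : ℝ) : IntermediateField ℚ ℝ :=
  IntermediateField.adjoin ℚ {β + β⁻¹}

/-- The field `F` embeds in a cyclotomic field. -/
def Cyclotomic (F : Type) [Field F] : Prop :=
  ∃ N : ℕ, 0 < N ∧ Nonempty (F →+* CyclotomicField N ℚ)

/-- **Abelian subfields of the trace field.** -/
theorem result (β : ℝ) (hβ : IsPerron β) (F : IntermediateField ℚ ℝ) (hF : F ≤ TraceField β)
    (hcyc : Cyclotomic F) (D m : ℕ) (hD : Module.finrank ℚ F = D)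
    (hm : Module.finrank ℚ (TraceField β) = D * m) :
    (β ^ 4 < 2 → 4 * m ≤ D → (parryPowers β).Finite) ∧
    (aeval β⁻¹ (minpoly ℤ β) = 0 ∨ β < 1.28 → (4 * (m : ℝ) - 2) ^ 2 ≤ 2 ^ D →
      β ^ (16 * m) < 2 ^ D → (parryPowers β).Finite) := by
  have hdeg := Q262.AB.degrees hβ.2.1 F hF hD hm
  letI : Algebra F (TraceField β) := (IntermediateField.inclusion hF).toRingHom.toAlgebra
  obtain ⟨hst, hm'⟩ := hdeg
  have hF' : ∃ N : ℕ, 0 < N ∧ Nonempty (F →ₐ[ℚ] CyclotomicField N ℚ) := by
    obtain ⟨N, hN, ⟨f⟩⟩ := hcyc
    exact ⟨N, hN, ⟨f.toRatAlgHom⟩⟩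
  subst hD hm'
  exact ⟨fun h1 h2 => Q262.AB.main4 (F := F) hβ h1 hF' h2,
    fun h1 h2 h3 => Q262.AB.main (F := F) hβ h1 hF' h2 h3⟩

end Pool.Agent.Results.MP_1f45fc_nt.AbelianSubfield
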