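import Mathlib
import Pool.Agent.Q191.MV.Perron
import Pool.Agent.Q191.MV.Num2

/-!
# Parry powers of Perron numbers over fields with a lift of Frobenius: several Frobenius steps

Let `β` be a Perron number, `F` a number field in `ℂ`, `f = [F : ℚ]`, and let `D` and `d` be the
degrees of `β` over `F` and over `ℚ` (so `D / d ≥ 1 / f`, with equality if and only if `F ⊆ ℚ(β)`).
Let `p` be a prime number, `q = p ^ l`, and let `τ` be an automorphism of `F` with `x ^ q ≡ τ x`
modulo `P` for all the algebraic integers `x` of `F` and for all the primes `P` of `F` in a finite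
set `T` of primes above `p`, such that `p ^ f ≤ (∏ N(P)) ^ B`.

Only finitely many powers of `β` are Parry numbers in each of the following cases:

* there is a `J` such that
  `B (2 (1 + q + ⋯ + q ^ J) (D / d) log β + log (D (J + 1))) < log p (l J (J - 1) / 3 + J)`;
* `q = 2`, `B = 1` (that is, `2` is unramified in `F` and `τ` is a Frobenius automorphism at all the
  primes above `2`), `F ⊆ ℚ(β)`, `β < 1.18`, and either `f ≥ 9` and `D ≤ f ^ 2`, or
  `D ≤ 2 ^ (J (J + 2) / 3 - 4) / (J + 1)` for a `J` with `2 ^ J ≤ 4 f`. Note that `1.18` is larger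
  than Lehmer's number. Nothing is assumed on `ℚ(β) / F`.

The last bound for `D` grows faster than any power of `f`; the same holds for all `p`, `l` and `B`:
in the first case, `J` close to `log f / log q` allows `D` as large as `exp (c (log f) ^ 2)`.

Method. If infinitely many powers of `β` are Parry numbers then `β` is the Mahler measure of its
minimal polynomial. The conjugates of `β ^ (q ^ j)`, `j = 0, …, J`, over the embeddings `v τ ^ (J - j)`
of `F` are inserted into a Vandermonde determinant, for each embedding `v` of `F`. By Witt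
coordinates, the coefficients of the minimal polynomials over `F` of `β ^ (q ^ b)` and of
`β ^ (q ^ a)`, `a < b`, are congruent modulo `P ^ (l a + 1)` up to `τ ^ (b - a)`, for all `P` in `T`.
So the norm of the product of the determinants is large. Hadamard's inequality bounds it from above by
the Mahler measure.
-/

set_option autoImplicit false

open NumberField Module Finset Polynomial

namespace Pool.Agent.Results.MP_1f45fc_nt.FrobeniusDeterminants

/-- `β` is a Perron number: an algebraic integer `β > 1` whose other conjugates have modulus `< β`. -/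
def IsPerron (β : ℝ) : Prop :=
  1 < β ∧ IsIntegral ℤ β ∧
    ∀ z : ℂ, aeval z (minpoly ℤ β) = 0 → z ≠ (β : ℂ) → ‖z‖ < β

/-- The `n ≥ 1` such that `β ^ n` is a Parry number, that is, the orbit of `1` under
`x ↦ fract (β ^ n * x)` is finite. -/
def parryPowers (β : ℝ) : Set ℕ :=
  {n : ℕ | 1 ≤ n ∧ Set.Finite (Set.range (fun k : ℕ =>
    (fun x : ℝ => Int.fract (β ^ n * x))^[k] (1 : ℝ)))}

/-- `p` is a prime number, and the number field `F` has an automorphism `τ` which is congruent to the
`p ^ l`-th power map modulo many primes above `p`: there is a finite set `T` of prime ideals above `p`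
with `x ^ (p ^ l) ≡ τ x` modulo each of them, such that the product of their norms is at least
`p ^ ([F : ℚ] / B)`. -/
def FrobeniusAt (F : Type) [Field F] [NumberField F] (p l B : ℕ) : Prop :=
  ∃ (τ : F ≃+* F) (T : Finset (Ideal (𝓞 F))), p.Prime ∧ 0 < l ∧
    (∀ P ∈ T, P.IsPrime ∧ (p : 𝓞 F) ∈ P ∧
      ∀ x : 𝓞 F, x ^ p ^ l - RingOfIntegers.mapRingHom (τ : F →+* F) x ∈ P) ∧
    p ^ finrank ℚ F ≤ (∏ P ∈ T, Ideal.absNorm P) ^ B

/-- The inequality
`B (2 (1 + q + ⋯ + q ^ J) (D / d) x + log (D (J + 1))) < log p (l J (J - 1) / 3 + J)`, `q = p ^ l`. -/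
def Small (p l B J : ℕ) (D d x : ℝ) : Prop :=
  B * (2 * (∑ j ∈ range (J + 1), ((p : ℝ) ^ l) ^ j) * (D / d * x) + Real.log (D * (J + 1))) <
    Real.log p * (l * (J * (J - 1) / 3) + J)

/-- `f ≥ 9` and `D ≤ f ^ 2`, or `(16 D (J + 1)) ^ 3 ≤ 2 ^ (J (J + 2))` for a `J` with `2 ^ J ≤ 4 f` -/
def Moderate (f D : ℕ) : Prop :=
  (9 ≤ f ∧ D ≤ f ^ 2) ∨ ∃ J : ℕ, 2 ^ J ≤ 4 * f ∧ (16 * D * (J + 1)) ^ 3 ≤ 2 ^ (J * (J + 2))

/-- **Parry powers over fields with a lift of Frobenius.** Only finitely many powers of the Perron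
number `β` are Parry numbers if `F` has the property `FrobeniusAt F p l B` and `Small p l B J D d (log β)`
for some `J`, where `D` and `d` are the degrees of `β` over `F` and over `ℚ`. This is the case if
`FrobeniusAt F 2 1 1`, `F ⊆ ℚ(β)`, `Moderate [F : ℚ] D` and `β < 1.18`. -/
theorem result (β : ℝ) (hβ : IsPerron β) (F : IntermediateField ℚ ℂ) [NumberField F] (D d : ℕ)
    (hD : (minpoly F (β : ℂ)).natDegree = D) (hd : (minpoly ℚ (β : ℂ)).natDegree = d) :
    (∀ p l B J : ℕ, FrobeniusAt F p l B → Small p l B J D d (Real.log β) →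
      (parryPowers β).Finite) ∧
    (FrobeniusAt F 2 1 1 → F ≤ IntermediateField.adjoin ℚ {(β : ℂ)} → Moderate (finrank ℚ F) D →
      β < 1.18 → (parryPowers β).Finite) := by
  subst hD hd
  have h1 : ∀ p l B J : ℕ, FrobeniusAt F p l B → Small p l B J (minpoly F (β : ℂ)).natDegree
      (minpoly ℚ (β : ℂ)).natDegree (Real.log β) → (parryPowers β).Finite :=
    fun p l B J hF h => Pool.Agent.Q191.MV.perron hβ F hF J h
  refine ⟨h1, fun hF hle hm hlt => ?_⟩
  have hint : IsIntegral ℚ (β : ℂ) := (hβ.2.1.map (algebraMap ℝ ℂ).toIntAlgHom).tower_top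
  have hD0 : (0 : ℝ) < (minpoly F (β : ℂ)).natDegree := by
    exact_mod_cast minpoly.natDegree_pos hint.tower_top
  have hdeg := Pool.Agent.Q191.MV.degree_sub (β : ℂ) hint F hle
  have hf0 : (0 : ℝ) < finrank ℚ F := by exact_mod_cast (finrank_pos : 0 < finrank ℚ F)
  have hlog : Real.log β ≤ Real.log 1.18 := Real.log_le_log (by linarith [hβ.1]) hlt.le
  obtain ⟨J, hJ⟩ : ∃ J : ℕ, 2 * (∑ j ∈ range (J + 1), (2 : ℝ) ^ j) * (Real.log β / finrank ℚ F) +
      Real.log ((minpoly F (β : ℂ)).natDegree * (J + 1)) < Real.log 2 * (J * (J - 1) / 3 + J) := by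
    rcases hm with ⟨hf, hD⟩ | ⟨J, hJ, hD⟩
    · exact Pool.Agent.Q191.MV.num_two (finrank ℚ F) hf (minpoly F (β : ℂ)).natDegree
        (Real.log β) hD0 (by exact_mod_cast hD) hlog
    · exact ⟨J, Pool.Agent.Q191.MV.num_three (finrank ℚ F) (minpoly F (β : ℂ)).natDegree J
        finrank_pos (minpoly.natDegree_pos hint.tower_top) (Real.log β)
        (Real.log_nonneg hβ.1.le) hlog hJ hD⟩
  refine h1 2 1 1 J hF ?_
  unfold Small
  have h2 : ((minpoly F (β : ℂ)).natDegree : ℝ) / (minpoly ℚ (β : ℂ)).natDegree * Real.log β =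
      Real.log β / finrank ℚ F := by
    rw [← hdeg]
    push_cast
    field_simp
  rw [h2]
  push_cast
  simpa using hJ

end Pool.Agent.Results.MP_1f45fc_nt.FrobeniusDeterminants
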