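import Mathlib
import Pool.Agent.Q262.AB.Fin2

/-!
# Parry powers of Perron numbers and subfields of the trace field with a lift of Frobenius

Let `β` be a Perron number, `K = ℚ(β + β⁻¹)`, `F` a subfield of `K`, `D = [F : ℚ]`, `m = [K : F]`.
Let `p` be a prime number and `φ` an endomorphism of `F` such that `x ^ p ≡ φ(x)` modulo `p` for all
the algebraic integers `x` of `F`. For instance `φ = 1` if and only if `p` splits completely in `F`
(which can be any field), and there is such a `φ` if `F` is abelian over `ℚ` and `p` is unramified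
in `F`. Nothing is assumed on `K / F`.

Only finitely many powers of `β` are Parry numbers in each of the following cases:

* `p = 2`, `D ≥ 3 m` and `β < 2 ^ (1 / 4)` (this is larger than Lehmer's number);
* `p = 2`, `φ = 1` (so `2` splits completely in `F`), `D ≥ 2 m` and `β < 2 ^ (1 / 4)`;
* `m = 1` or `(5 m) ^ (p - 1) ≤ p ^ D`, `β` is reciprocal or less than `1.28`, and
  `4 m (p - 1) p ^ (1 / (p - 1)) (1 + 1 / p) log β < D log p`, or `φ = 1` and
  `4 m (p - 1) p ^ (1 / (p - 1)) log β < D log p`.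

Method. If infinitely many powers of `β` are Parry numbers then the other conjugates of `β` lie in
the closed unit disc. Let `S_n` be the relative trace of `β ^ n + β ^ (-n)`, from `K` to `F`; all its
conjugates but the given one have modulus at most `2 m`. The numbers `S_(p ^ k)` are the ghost
components of a sum of Teichmüller representatives; its Witt coordinates are algebraic integers
of `F`. Hence `S_(p ^ (k + 1)) ≡ φ (S_(p ^ k))` modulo `p ^ (k + 1)`. If `β ^ (p ^ (k + 1))` is large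
enough then the difference is not zero, and its norm is at least `p ^ ((k + 1) D)`. Then `k` is
chosen such that `p ^ (k + 1)` lies between `4 m p ^ (1 / (p - 1))` and `4 m p ^ (p / (p - 1))`, or, if
the difference is zero, as the next `k` for which it is not zero.
-/

set_option autoImplicit false

open Polynomial

namespace Pool.Agent.Results.MP_1f45fc_nt.FrobeniusSubfield

/-- `β` is a Perron number: an algebraic integer `β > 1` whose other conjugates have modulus `< β`. -/
def IsPerron (β : ℝ) : Prop :=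
  1 < β ∧ IsIntegral ℤ β ∧
    ∀ z : ℂ, aeval z (minpoly ℤ β) = 0 → z ≠ (β : ℂ) → ‖z‖ < β

/-- The `n ≥ 1` such that `β ^ n` is a Parry number, that is, the orbit of `1` under
`x ↦ fract (β ^ n * x)` is finite. -/
def parryPowers (β : ℝ) : Set ℕ :=
  {n : ℕ | 1 ≤ n ∧ Set.Finite (Set.range (fun k : ℕ =>
    (fun x : ℝ => Int.fract (β ^ n * x))^[k] (1 : ℝ)))}

/-- The field `ℚ(β + β⁻¹)`. -/
noncomputable abbrev TraceField (β : ℝ) : IntermediateField ℚ ℝ :=
  IntermediateField.adjoin ℚ {β + β⁻¹}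

/-- Only finitely many powers of `β` are Parry numbers. -/
def Few (β : ℝ) : Prop := (parryPowers β).Finite

/-- There is an endomorphism `φ` of `F` such that `x ^ p ≡ φ(x)` modulo `p` for all the algebraic
integers `x` of `F`. -/
def HasFrobeniusLift (F : Type) [Field F] (p : ℕ) : Prop :=
  ∃ φ : F →+* F, ∀ x : F, IsIntegral ℤ x → ∃ y : F, IsIntegral ℤ y ∧ x ^ p = φ x + p * y

/-- `x ^ p ≡ x` modulo `p` for all the algebraic integers `x` of `F`, that is, `p` splits completely
in `F`. -/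
def SplitsCompletely (F : Type) [Field F] (p : ℕ) : Prop :=
  ∀ x : F, IsIntegral ℤ x → ∃ y : F, IsIntegral ℤ y ∧ x ^ p = x + p * y

/-- `4 (p - 1) p ^ (1 / (p - 1))` -/
noncomputable def cst (p : ℕ) : ℝ := 4 * ((p : ℝ) - 1) * (p : ℝ) ^ (((p - 1 : ℕ) : ℝ)⁻¹)

/-- `m = 1` or `(5 m) ^ (p - 1) ≤ p ^ D`, and `β < 1.28` or `β⁻¹` is a conjugate of `β` -/
def Admissible (β : ℝ) (p D m : ℕ) : Prop :=
  (m = 1 ∨ (5 * m) ^ (p - 1) ≤ p ^ D) ∧ (aeval β⁻¹ (minpoly ℤ β) = 0 ∨ β < 1.28)

/-- The condition on `β`, `p`, `D`, `m` if there is a lift of Frobenius. -/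
def CaseLift (β : ℝ) (p D m : ℕ) : Prop :=
  (p = 2 ∧ β ^ 4 < 2 ∧ 3 * m ≤ D) ∨
    (Admissible β p D m ∧ cst p * (1 + 1 / p) * m * Real.log β < D * Real.log p)

/-- The condition on `β`, `p`, `D`, `m` if `p` splits completely. -/
def CaseSplit (β : ℝ) (p D m : ℕ) : Prop :=
  (p = 2 ∧ β ^ 4 < 2 ∧ 2 * m ≤ D) ∨
    (Admissible β p D m ∧ cst p * m * Real.log β < D * Real.log p)

/-- **Subfields of the trace field with a lift of the Frobenius map.** -/
theorem result (β : ℝ) (hβ : IsPerron β) (F : IntermediateField ℚ ℝ) (hF : F ≤ TraceField β)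
    (D m : ℕ) (hD : Module.finrank ℚ F = D) (hm : Module.finrank ℚ (TraceField β) = D * m)
    (p : ℕ) (hp : p.Prime) :
    (HasFrobeniusLift F p → CaseLift β p D m → Few β) ∧
    (SplitsCompletely F p → CaseSplit β p D m → Few β) := by
  have hdeg := Q262.AB.degrees hβ.2.1 F hF hD hm
  letI : Algebra F (TraceField β) := (IntermediateField.inclusion hF).toRingHom.toAlgebra
  obtain ⟨hst, hm'⟩ := hdeg
  subst hD hm'
  have hx0 : (0 : ℝ) < (p : ℝ) ^ (((p - 1 : ℕ) : ℝ)⁻¹) :=
    Real.rpow_pos_of_pos (by exact_mod_cast hp.pos) _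
  have hx0p : ((p : ℝ) ^ (((p - 1 : ℕ) : ℝ)⁻¹)) ^ (p - 1) = p :=
    Real.rpow_inv_natCast_pow (Nat.cast_nonneg p) (by have := hp.two_le; omega)
  refine ⟨?_, ?_⟩
  · rintro ⟨φ, hφ⟩ (⟨h1, h2, h3⟩ | ⟨⟨h1, h2⟩, h3⟩)
    · subst h1
      exact Q262.AB.mainB2 (F := F) hβ h2 φ.toRatAlgHom hφ h3
    · refine Q262.AB.mainB (F := F) hβ h2 hp φ.toRatAlgHom hφ h1 hx0 hx0p (lt_of_eq_of_lt ?_ h3)
      unfold cst
      ring
  · rintro hφ (⟨h1, h2, h3⟩ | ⟨⟨h1, h2⟩, h3⟩)
    · subst h1
      exact Q262.AB.mainC2 (F := F) hβ h2 hφ h3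
    · refine Q262.AB.mainC (F := F) hβ h2 hp hφ h1 hx0 hx0p (lt_of_eq_of_lt ?_ h3)
      unfold cst
      ring

end Pool.Agent.Results.MP_1f45fc_nt.FrobeniusSubfield
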