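import Mathlib
import Pool.Agent.Q262.FR.Lor

/-!
# Salem numbers from isometries of Lorentzian lattices that move a lattice point a bounded distance

Let `G` be an integral symmetric matrix of any size `n` and `A` an integral isometry of the form `G`
with eigenvectors `e`, `f` for real eigenvalues `β > 1` and `1 / β`, such that `G` is positive
definite on the vectors orthogonal to `e` and `f`.  So `G` is an integral lattice of signature
`(n - 1, 1)`, `A` acts on hyperbolic `(n - 1)`-space as a loxodromic isometry, and `β` is a quadratic
unit or a Salem number.  Let `v` be a vector of the lattice with `(v, v) < 0`, that is a rational point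
of hyperbolic space.  If `|(v, A v)| ≤ L` then `β ≥ μ`, where `μ > 1` depends on `L` only, and not on
the lattice, its dimension or its discriminant.

The distance `d` of the points `v` and `A v` is given by `cosh d = (v, A v) / (v, v)`, and
`sinh (d / 2) = cosh R · sinh ((log β) / 2)` where `R` is the distance of the point `v` from the axis of
`A`.  So, for bounded `(v, v)`, the theorem says that `R - log (1 / log β)` tends to infinity if `β`
tends to `1`.  The theorem `LorentzianAxis` of the starting library says that `R` tends to infinity.

Method: see `Pool.Agent.Results.MP_dc0c68_nt.IndefiniteLattices`.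
-/

set_option autoImplicit false

namespace Pool.Agent.Results.MP_1f45fc_nt.LorentzianDisplacement

noncomputable section

/-- The symmetric bilinear form with the integral Gram matrix `G`. -/
def form {n : ℕ} (G : Matrix (Fin n) (Fin n) ℤ) (x y : Fin n → ℝ) : ℝ :=
  ∑ i, ∑ j, (G i j : ℝ) * x i * y j

/-- The image of the real vector `x` under the integer matrix `A`. -/
def image {n : ℕ} (A : Matrix (Fin n) (Fin n) ℤ) (x : Fin n → ℝ) : Fin n → ℝ :=
  fun i => ∑ j, (A i j : ℝ) * x j

/-- `A` is an integral isometry of the integral symmetric form `G`, with eigenvectors `e` and `f` for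
the eigenvalues `β > 1` and `1 / β`, and `G` is positive definite on the space of the vectors
orthogonal to `e` and `f`. -/
structure IsLoxodromic {n : ℕ} (G A : Matrix (Fin n) (Fin n) ℤ) (e f : Fin n → ℝ) (β : ℝ) :
    Prop where
  symmetric : G.transpose = G
  isometry : A.transpose * G * A = G
  one_lt : 1 < β
  eigen_e : image A e = β • e
  eigen_f : image A f = β⁻¹ • f
  positive : ∀ x : Fin n → ℝ, x ≠ 0 → form G e x = 0 → form G f x = 0 → 0 < form G x x

theorem result (L : ℝ) : ∃ μ : ℝ, 1 < μ ∧
    ∀ (n : ℕ) (G A : Matrix (Fin n) (Fin n) ℤ) (e f : Fin n → ℝ) (β : ℝ) (v : Fin n → ℤ),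
      IsLoxodromic G A e f β → form G (fun i => (v i : ℝ)) (fun i => (v i : ℝ)) < 0 →
      |form G (fun i => (v i : ℝ)) (image A fun i => (v i : ℝ))| ≤ L → μ ≤ β := by
  obtain ⟨μ, hμ, h⟩ := Q262.FR.lor_disp L
  exact ⟨μ, hμ, fun n G A e f β v hA h1 h2 => h n G A e f β v hA.symmetric hA.isometry hA.one_lt
    hA.eigen_e hA.eigen_f hA.positive h1 h2⟩

end

end Pool.Agent.Results.MP_1f45fc_nt.LorentzianDisplacement
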